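import Pool.Agent.TH80.CLX.Cor

/-!
# The `C^r` closing lemma on homogeneous periodic submanifolds, and at their limits

`V n = ℝⁿ`, `DiffM n N r = Diff^r(N)`, `strongTop n N r` is its strong (Whitney) `C^r` topology (the
usual one, `N` being compact), `IsPer G z`: `z` is periodic for `G` (`Pool/Agent/H718R2/G0.lean`).
`IsLieAction n N ι O act`: smooth action of a compact Lie group on the open set `O ⊆ N`;
`IsHomPer n N F y`: a compact Lie group `G` acts smoothly on an open set `O` containing `y`, the orbit
`C = G y` is periodic under `F` with some period `m` (`F^m C = C`, and `F^i C` is disjoint from `C` for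
`0 < i < m`) and `F^m` commutes on `C` with the action; elsewhere `F` is arbitrary
(`Pool/Agent/TH80/CLX/Defs.lean`).

Special cases, in `Pool/Agent/TH80/CLX/Cor.lean`:
* `equivariant`: `F` commutes with a smooth (not necessarily free) action of a compact Lie group `G`
  and `z` is a limit of points with `F^m(y) ∈ G y` (e.g. compact group extensions of diffeomorphisms
  with dense periodic points);
* `cocycle`: all points are closable for all cocycles `(θ, x) ↦ (θ + α, A(θ) x)` over rotations of
  tori with values in a compact Lie group.
Further cases: `G` a torus, `C` an invariant (or periodic) torus with quasi-periodic motion, e.g.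
limits of KAM tori.
-/

set_option autoImplicit false

open scoped Manifold ContDiff Topology

namespace Pool.Agent.Results.MP_1e8d1a_an.CompactLieSymmetry

open Pool.Agent.H718R2.G Pool.Agent.TH80.CLX

/-- Let `N` be a closed manifold, `1 ≤ r ≤ ∞`, `F ∈ Diff^r(N)` and `z ∈ N`. Suppose that arbitrarily
`C^r`-close to `F` there are diffeomorphisms `F'` (for example `F' = F`) for which `z` is a limit of
points lying on homogeneous periodic submanifolds. Then the conclusion of the `C^r` closing lemma
holds for `F` at `z`. -/
theorem result {n : ℕ} {N : Type*} [TopologicalSpace N] [T2Space N] [CompactSpace N]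
    [ChartedSpace (V n) N] [IsManifold (𝓡 n) ∞ N] (r : ℕ∞) (hr : 1 ≤ r) (F : DiffM n N r) (z : N)
    (h : ∀ U : Set (DiffM n N r), IsOpen[strongTop n N r] U → F ∈ U →
      ∃ F' ∈ U, z ∈ closure {y | IsHomPer n N F' y}) :
    ∀ U : Set (DiffM n N r), IsOpen[strongTop n N r] U → F ∈ U → ∃ G ∈ U, IsPer G z :=
  main r hr F z h

end Pool.Agent.Results.MP_1e8d1a_an.CompactLieSymmetry
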