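import Pool.Agent.TH290.CL.Main

/-!
# The `C^r` closing lemma for roots of suspension flows

`V n = ℝⁿ`, `DiffM n N r = Diff^r(N)`, `strongTop n N r` is its strong (Whitney) `C^r` topology (the
usual one, `N` being compact), `IsRec F z`: `z` is recurrent, i.e. `m ↦ F^m z` is not a homeomorphism
of `ℤ` onto its image, `IsPer G z`: `z` is periodic (`Pool/Agent/H718R2/G0.lean`).
`IsFlow n N ψ`: `ψ` is a smooth action of `ℝ` on `N` (`Pool/Agent/TH290/CL/Flow.lean`).
`RootOn n N r F ψ a K α i j` (`Pool/Agent/TH290/CL/Main.lean`): `K` is invariant under `F`, `F⁻¹` and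
the smooth flow `ψ`; on `K` the map `F` commutes with `ψ` and `F^i = ψ_(i α + j)` with coprime `i`,
`j`; `a : N → ℂ` is smooth with `|a| = 1`, `a (ψ_t y) = exp(2πit) a(y)`, `a (F y) = exp(2πiα) a(y)` on
`K`. Outside of `K` the diffeomorphism `F` is arbitrary.

The theorems `product_rotation` (`F = f × R_α`, `f` arbitrary) and `suspension_time_map` (`F = ψ_α`, `ψ` the
suspension flow of an arbitrary diffeomorphism) are special cases of the result.
-/

set_option autoImplicit false

open scoped Manifold ContDiff Topology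

namespace Pool.Agent.Results.MP_1e8d1a_an.FlowRoots

open Pool.Agent.H718R2.G Pool.Agent.TH290.CL

/-- Let `N` be a closed manifold, `1 ≤ r ≤ ∞`, `F ∈ Diff^r(N)` and `z ∈ N`. Suppose that `F` is a `C^r`
limit of diffeomorphisms `F'` (for example `F' = F`) for which `z` is recurrent and lies in an invariant
set `K` on which `F'` is a root of a suspension flow. Then the conclusion of the `C^r` closing lemma
holds for `F` at `z`. -/
theorem result {n : ℕ} {N : Type*} [TopologicalSpace N] [T2Space N] [CompactSpace N]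
    [ChartedSpace (V n) N] [IsManifold (𝓡 n) ∞ N] (r : ℕ∞) (hr : 1 ≤ r) (F : DiffM n N r) (z : N)
    (h : ∀ U : Set (DiffM n N r), IsOpen[strongTop n N r] U → F ∈ U →
      ∃ (F' : DiffM n N r) (ψ : ℝ → N → N) (a : N → ℂ) (K : Set N) (α : ℝ) (i : ℕ) (j : ℤ),
        F' ∈ U ∧ RootOn n N r F' ψ a K α i j ∧ z ∈ K ∧ IsRec F'.toHomeomorph z) :
    ∀ U : Set (DiffM n N r), IsOpen[strongTop n N r] U → F ∈ U → ∃ G ∈ U, IsPer G z := by
  intro U hU hFU
  obtain ⟨F', ψ, a, K, α, i, j, hF', hroot, hz, hrec⟩ := h U hU hFU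
  exact main r hr F' hroot z hz hrec U hU hF'

/-- Special case `F = f × R_α` on `N = M × S¹` with `f` an arbitrary diffeomorphism of `M` and `R_α` an
arbitrary rotation: `F` commutes with a smooth circle action `ψ` and `a : N → S¹` is a smooth equivariant
map with `a ∘ F = exp(2πiα) a`. -/
theorem product_rotation {n : ℕ} {N : Type*} [TopologicalSpace N] [T2Space N] [CompactSpace N]
    [ChartedSpace (V n) N] [IsManifold (𝓡 n) ∞ N] (r : ℕ∞) (hr : 1 ≤ r) (ψ : ℝ → N → N) (a : N → ℂ)
    (hψ : IsFlow n N ψ) (ha : ContMDiff (𝓡 n) 𝓘(ℝ, ℂ) ∞ a) (ha1 : ∀ y, ‖a y‖ = 1)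
    (haψ : ∀ t y, a (ψ t y) = Complex.exp (2 * Real.pi * Complex.I * (t : ℝ)) * a y)
    (hψ1 : ∀ y, ψ 1 y = y) (F : DiffM n N r) (α : ℝ) (hF : ∀ t y, F (ψ t y) = ψ t (F y))
    (haF : ∀ y, a (F y) = Complex.exp (2 * Real.pi * Complex.I * (α : ℝ)) * a y)
    (z : N) (hz : IsRec F.toHomeomorph z) :
    ∀ U : Set (DiffM n N r), IsOpen[strongTop n N r] U → F ∈ U → ∃ G ∈ U, IsPer G z := by
  have hroot : RootOn n N r F ψ a Set.univ α 0 1 :=
    { flow := hψ
      smooth := ha
      inv := fun _ _ => Set.mem_univ _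
      inv' := fun _ _ => Set.mem_univ _
      invψ := fun _ _ _ => Set.mem_univ _
      comm := fun y _ t => hF t y
      norm := fun y _ => ha1 y
      eigψ := fun y _ t => haψ t y
      eigF := fun y _ => haF y
      cop := isCoprime_one_right
      root := fun y _ => by
        have e : ((0 : ℕ) : ℝ) * α + ((1 : ℤ) : ℝ) = 1 := by push_cast; ring
        rw [e, hψ1]
        rfl }
  exact result r hr F z fun U _ hFU => ⟨F, ψ, a, Set.univ, α, 0, 1, hFU, hroot, Set.mem_univ _, hz⟩

/-- Special case `F = ψ_α`, where `ψ` is the suspension flow of an arbitrary diffeomorphism: a smooth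
flow with a smooth `a : N → S¹` such that `a ∘ ψ_t = exp(2πit) a`. -/
theorem suspension_time_map {n : ℕ} {N : Type*} [TopologicalSpace N] [T2Space N] [CompactSpace N]
    [ChartedSpace (V n) N] [IsManifold (𝓡 n) ∞ N] (r : ℕ∞) (hr : 1 ≤ r) (ψ : ℝ → N → N) (a : N → ℂ)
    (hψ : IsFlow n N ψ) (ha : ContMDiff (𝓡 n) 𝓘(ℝ, ℂ) ∞ a) (ha1 : ∀ y, ‖a y‖ = 1)
    (haψ : ∀ t y, a (ψ t y) = Complex.exp (2 * Real.pi * Complex.I * (t : ℝ)) * a y)
    (F : DiffM n N r) (α : ℝ) (hF : ∀ y, F y = ψ α y) (z : N) (hz : IsRec F.toHomeomorph z) :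
    ∀ U : Set (DiffM n N r), IsOpen[strongTop n N r] U → F ∈ U → ∃ G ∈ U, IsPer G z := by
  have hroot : RootOn n N r F ψ a Set.univ α 1 0 :=
    { flow := hψ
      smooth := ha
      inv := fun _ _ => Set.mem_univ _
      inv' := fun _ _ => Set.mem_univ _
      invψ := fun _ _ _ => Set.mem_univ _
      comm := fun y _ t => by
        rw [hF, hF, ← hψ.add, ← hψ.add, add_comm]
      norm := fun y _ => ha1 y
      eigψ := fun y _ t => haψ t y
      eigF := fun y _ => by
        rw [hF]
        exact haψ α y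
      cop := isCoprime_one_left
      root := fun y _ => by
        have e : ((1 : ℕ) : ℝ) * α + ((0 : ℤ) : ℝ) = α := by push_cast; ring
        rw [e]
        exact hF y }
  exact result r hr F z fun U _ hFU => ⟨F, ψ, a, Set.univ, α, 1, 0, hFU, hroot, Set.mem_univ _, hz⟩

end Pool.Agent.Results.MP_1e8d1a_an.FlowRoots
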