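import Pool.Agent.TH382.QC.Elem

/-!
# The `C^r` closing lemma for `SL(2, ℝ)`-extensions which are not uniformly hyperbolic

`V n = ℝⁿ`, `DiffM n N r = Diff^r(N)`, `strongTop n N r` is its strong (Whitney) `C^r` topology (the
usual one, `N` being compact), `IsPer G z`: `z` is periodic (`Pool/Agent/H718R2/G0.lean`).

From `Pool/Agent/TH382/QC/Defs.lean`:
* `ClosableAt n N r F z`: every neighbourhood of `F` in `Diff^r(N)` contains some `G` for which `z` is
  periodic;
* `SL2` is the group `SL(2, ℝ)` and `rot s` its rotation by the angle `s`;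
* `IsAct n N ρ`: `ρ` is an action of the group `SL(2, ℝ)` on `N` such that the rotations act smoothly;
* `IsExt n N r ρ A F₀ F`: `F y = A(y) · F₀(y)`, where `A : N → SL(2, ℝ)` is continuous and invariant
  under the action and `F₀` commutes with the action (a skew product over `F₀`);
* `EquivClosable n N r ρ F₀ z`: `F₀` can be `C^r`-closed at `z` by maps which commute with the action;
* `UnifHyp n N r A F₀ z`: the cocycle `A (F₀^(m-1) y) ⋯ A (F₀ y) A y` is uniformly hyperbolic over the
  closure of the full orbit of `z`, that is, these products grow exponentially, uniformly in `y`.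

The theorems `quasiperiodic` (`F₀` is a translation `R α` of a torus action which commutes with the
action of `SL(2, ℝ)`, for example `F (x, h Γ) = (x + α, A(x) h Γ)` on `𝕋^d × SL(2, ℝ) / Γ`) and
`nonhyperbolic` (`F = ρ g` with `|tr g| ≤ 2`, for example the time maps of horocycle flows) are special
cases of the result. In both of them `z` is an arbitrary point.
-/

set_option autoImplicit false

open scoped Manifold ContDiff Topology

namespace Pool.Agent.Results.MP_1e8d1a_an.SLTwoExtensions

open Pool.Agent.H718R2.G Pool.Agent.TH382.QC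

/-- Let `SL(2, ℝ)` act on the closed manifold `N`, let `F₀ ∈ Diff^r(N)` commute with the action, let
`A : N → SL(2, ℝ)` be continuous and invariant under the action and let `F y = A(y) · F₀ y` be in
`Diff^r(N)`. Let `z` be a point at which `F₀` can be `C^r`-closed by diffeomorphisms which commute with
the action. Then `F` can be `C^r`-closed at `z`, unless the cocycle of `A` over `F₀` is uniformly
hyperbolic over the closure of the full `F₀`-orbit of `z`. -/
theorem result {n : ℕ} {N : Type*} [TopologicalSpace N] [T2Space N] [CompactSpace N]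
    [ChartedSpace (V n) N] [IsManifold (𝓡 n) ∞ N] (r : ℕ∞) (ρ : SL2 → N → N) (hρ : IsAct n N ρ)
    (A : N → SL2) (F₀ F : DiffM n N r) (hF : IsExt n N r ρ A F₀ F) (z : N)
    (hz : EquivClosable n N r ρ F₀ z) : UnifHyp n N r A F₀ z ∨ ClosableAt n N r F z :=
  main hρ F₀ F hF z hz

/-- Special case: quasi-periodic `SL(2, ℝ)`-cocycles. -/
theorem quasiperiodic {d n : ℕ} {N : Type*} [TopologicalSpace N] [T2Space N] [CompactSpace N]
    [ChartedSpace (V n) N] [IsManifold (𝓡 n) ∞ N] (r : ℕ∞) (ρ : SL2 → N → N) (hρ : IsAct n N ρ)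
    (R : V d → N → N) (hR : IsTorusAct d n N R) (hRρ : ∀ a, Commutes ρ (R a)) (α : V d)
    (A : N → SL2) (F₀ F : DiffM n N r) (hF₀ : ∀ y, F₀ y = R α y) (hF : IsExt n N r ρ A F₀ F)
    (z : N) : UnifHyp n N r A F₀ z ∨ ClosableAt n N r F z :=
  torus hρ hR hRρ α F₀ F hF₀ hF z

/-- Special case: elements of `SL(2, ℝ)` which are not hyperbolic, in an arbitrary action. -/
theorem nonhyperbolic {n : ℕ} {N : Type*} [TopologicalSpace N] [T2Space N] [CompactSpace N]
    [ChartedSpace (V n) N] [IsManifold (𝓡 n) ∞ N] (r : ℕ∞) (ρ : SL2 → N → N) (hρ : IsAct n N ρ)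
    (g : SL2) (hg : |g.1 0 0 + g.1 1 1| ≤ 2) (F : DiffM n N r) (hF : ∀ y, F y = ρ g y) (z : N) :
    ClosableAt n N r F z :=
  elem hρ hg F hF z

end Pool.Agent.Results.MP_1e8d1a_an.SLTwoExtensions
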