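import Pool.Agent.TH382.HS.Cor

/-!
# The `C^r` closing lemma at limits of periodic homogeneous submanifolds `SL(2, ℝ) / Γ`

`V n = ℝⁿ`, `DiffM n N r = Diff^r(N)`, `strongTop n N r` is its strong (Whitney) `C^r` topology (the
usual one, `N` being compact), `IsPer G z`: `z` is periodic (`Pool/Agent/H718R2/G0.lean`);
`SL2` is the group `SL(2, ℝ)`; `ClosableAt n N r F z`: every neighbourhood of `F` in `Diff^r(N)` contains
some `G` for which `z` is periodic (`Pool/Agent/TH382/QC/Defs.lean`).

From `Pool/Agent/TH382/HS/Defs.lean`: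
* `IsSLAction n N O act`: smooth action of `SL(2, ℝ)` on the open set `O ⊆ N`;
* `IsLatticePt act y`: the stabiliser `Γ` of `y` is discrete and cocompact;
* `IsSLPer n N F y`: `y` lies on a periodic homogeneous submanifold: `SL(2, ℝ)` acts smoothly on an open
  set containing `y`, `C = SL(2, ℝ) y ≅ SL(2, ℝ) / Γ` with `Γ` discrete and cocompact, `F^m(C) = C`, the
  sets `F^i(C)`, `0 < i < m`, do not meet `C`, and `F^m` is on `C` the translation by some (arbitrary)
  `h ∈ SL(2, ℝ)`, possibly composed with a map of finite order which commutes with the action. Nothing is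
  required of `F` elsewhere.

The last three theorems are special cases: translations (`F = ρ h` for an action `ρ` of `SL(2, ℝ)`),
cocycle extensions, and quasi-periodic cocycles, such as `F (x, g Γ) = (x + α, A(x) g Γ)` on
`𝕋^d × SL(2, ℝ) / Γ` for all smooth `A : 𝕋^d → SL(2, ℝ)`, uniformly hyperbolic or not, at all points.
-/

set_option autoImplicit false

open scoped Manifold ContDiff Topology

namespace Pool.Agent.Results.MP_1e8d1a_an.SLTwoHomogeneous

open Pool.Agent.H718R2.G Pool.Agent.TH382.QC Pool.Agent.TH382.HS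

/-- Let `N` be a closed manifold, `F ∈ Diff^r(N)` and `z ∈ N`. Suppose that arbitrarily `C^r`-close to
`F` there are diffeomorphisms `F'` (for example `F' = F`) for which `z` is a limit of points lying on
periodic homogeneous submanifolds `SL(2, ℝ) / Γ`, `Γ` discrete and cocompact, on which the return map is a
translation. Then the conclusion of the `C^r` closing lemma holds for `F` at `z`. -/
theorem result {n : ℕ} {N : Type*} [TopologicalSpace N] [T2Space N] [CompactSpace N]
    [ChartedSpace (V n) N] [IsManifold (𝓡 n) ∞ N] (r : ℕ∞) (F : DiffM n N r) (z : N)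
    (h : ∀ U : Set (DiffM n N r), IsOpen[strongTop n N r] U → F ∈ U →
      ∃ F' ∈ U, z ∈ closure {y | IsSLPer n N F' y}) :
    ∀ U : Set (DiffM n N r), IsOpen[strongTop n N r] U → F ∈ U → ∃ G ∈ U, IsPer G z :=
  main F z h

/-- Special case: cocycle extensions `F y = A(y) · F₀(y)` of a map `F₀` which can be closed at `z` by
maps commuting with the action. -/
theorem cocycle_extension {n : ℕ} {N : Type*} [TopologicalSpace N] [T2Space N] [CompactSpace N]
    [ChartedSpace (V n) N] [IsManifold (𝓡 n) ∞ N] (r : ℕ∞) (ρ : SL2 → N → N)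
    (hρ : IsSLAction n N Set.univ ρ) (A : N → SL2) (F₀ F : DiffM n N r) (hF : IsSkew ρ A F₀ F)
    (z : N) (hz : IsLatticePt ρ z) (hc : EquivClosable n N r ρ F₀ z) : ClosableAt n N r F z :=
  extension hρ F₀ F hF z hz hc

/-- Special case: quasi-periodic `SL(2, ℝ)`-cocycles, at all points. -/
theorem quasiperiodic_cocycle {d n : ℕ} {N : Type*} [TopologicalSpace N] [T2Space N]
    [CompactSpace N] [ChartedSpace (V n) N] [IsManifold (𝓡 n) ∞ N] (r : ℕ∞) (ρ : SL2 → N → N)
    (hρ : IsSLAction n N Set.univ ρ) (R : V d → N → N) (hR : IsTorusAct d n N R)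
    (hRρ : ∀ a, Commutes ρ (R a)) (α : V d) (A : N → SL2) (F₀ F : DiffM n N r)
    (hF₀ : ∀ y, F₀ y = R α y) (hF : IsSkew ρ A F₀ F) (z : N) (hz : IsLatticePt ρ z) :
    ClosableAt n N r F z :=
  quasiperiodic hρ hR hRρ α F₀ F hF₀ hF z hz

/-- Special case: all elements of `SL(2, ℝ)`, for example the time maps of geodesic and horocycle
flows. -/
theorem translation {n : ℕ} {N : Type*} [TopologicalSpace N] [T2Space N] [CompactSpace N]
    [ChartedSpace (V n) N] [IsManifold (𝓡 n) ∞ N] (r : ℕ∞) (ρ : SL2 → N → N)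
    (hρ : IsSLAction n N Set.univ ρ) (g : SL2) (F : DiffM n N r) (hF : ∀ y, F y = ρ g y)
    (z : N) (hz : IsLatticePt ρ z) : ClosableAt n N r F z :=
  extension hρ (Diffeomorph.refl (𝓡 n) N r) F (A := fun _ => g) ⟨fun _ _ => rfl, fun _ _ => rfl, hF⟩
    z hz (fun _ _ hU => ⟨_, hU, fun _ _ => rfl, 1, le_rfl, rfl⟩)

end Pool.Agent.Results.MP_1e8d1a_an.SLTwoHomogeneous
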